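import Mathlib
import Pool.Agent.Helper36.CWid.Defs
import Pool.Agent.Helper36.CWid.Final

set_option autoImplicit false

namespace Pool.Agent.Results.MP_7ff8c4_co.AllBounded

open Pool.Agent.Helper36.CWid

/-- For every `t ≥ 1` the class of `E_t`-free chordal bipartite graphs has bounded
clique-width. -/
theorem result : ∀ t : ℕ, 1 ≤ t → BoundedCliqueWidth (EFreeChordalBipartite t) :=
  fun _ ht => main ht

end Pool.Agent.Results.MP_7ff8c4_co.AllBounded
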